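import Pool.Agent.Lib.H54R.Q2

/-!
# MP_88c1a0_lc: apRAC-drawability is complete for the existential theory of the reals

The decision problem: does a finite simple graph have a straight-line drawing in which of any two
crossing edges one is horizontal and the other one is vertical? It is in the class of the existential
theory of the reals, and every decision problem in this class reduces to it by a many-one reduction
computable in polynomial time by a Turing machine. This answers Q1: the statement is true.
-/

set_option autoImplicit false

namespace Pool.Agent.Results.MP_88c1a0_lc.Completeness

open Pool.Agent.H54R Pool.Agent.MinRank

/-- apRAC-drawability is complete for the existential theory of the reals. -/
theorem result : ERComplete (bitString (α := Gr)) APRAC :=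
  aprac_complete

end Pool.Agent.Results.MP_88c1a0_lc.Completeness
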